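import Mathlib
import Pool.Agent.V11212.Col.Bound
import Pool.Agent.V11212.Col.Collapse

/-!
# Vietoris-Rips complexes of finite sets of binary words collapse to dimension `2 ^ r - 1`

Natural numbers stand for the binary words given by their binary expansions.
-/

set_option autoImplicit false

namespace Pool.Agent.Results.MP_6ffc1e_gt.CubeCollapse

/-- The number of binary digits in which `x` and `y` differ. -/
noncomputable def ham (x y : ℕ) : ℕ := {i : ℕ | x.testBit i ≠ y.testBit i}.ncard

/-- The clique complex of the graph on the finite set `S` of binary words, two words being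
adjacent when they are at distance at most `r`: the nonempty subsets of `S` whose elements are
pairwise at distance at most `r`. -/
def VR (S : Finset ℕ) (r : ℕ) : Set (Finset ℕ) :=
  {s | s.Nonempty ∧ s ⊆ S ∧ ∀ x ∈ s, ∀ y ∈ s, ham x y ≤ r}

/-- One elementary collapse: a pair of simplices `s ⊂ t` of `K` with `dim t = dim s + 1`,
where `t` is the only simplex of `K` properly containing `s`, is removed. -/
def ElemCollapse (K L : Set (Finset ℕ)) : Prop :=
  ∃ s t : Finset ℕ, s ∈ K ∧ t ∈ K ∧ s ⊂ t ∧ t.card = s.card + 1 ∧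
    (∀ u ∈ K, s ⊂ u → u = t) ∧ L = K \ {s, t}

/-- `K` collapses to `L` by a finite sequence of elementary collapses. -/
def Collapses (K L : Set (Finset ℕ)) : Prop := Relation.ReflTransGen ElemCollapse K L

/-- The `k`-skeleton: the simplices of dimension at most `k`. -/
def skeleton (k : ℕ) (K : Set (Finset ℕ)) : Set (Finset ℕ) := {s | s ∈ K ∧ s.card ≤ k + 1}

/-- `L` is a simplicial complex: its members are nonempty, and nonempty subsets of members
are members. -/
def IsComplex (L : Set (Finset ℕ)) : Prop :=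
  ∀ s ∈ L, s.Nonempty ∧ ∀ t : Finset ℕ, t.Nonempty → t ⊆ s → t ∈ L

theorem ham_eq {n x y : ℕ} (hx : x < 2 ^ n) (hy : y < 2 ^ n) :
    ham x y = ((Finset.range n).filter (fun i => x.testBit i ≠ y.testBit i)).card := by
  rw [ham, ← Set.ncard_coe_finset]
  congr 1
  ext i
  simp only [Set.mem_setOf_eq, Finset.coe_filter, Finset.mem_range]
  constructor
  · intro h
    refine ⟨?_, h⟩
    by_contra hi
    push Not at hi
    have h1 : x < 2 ^ i := hx.trans_le (Nat.pow_le_pow_right (by norm_num) hi)
    have h2 : y < 2 ^ i := hy.trans_le (Nat.pow_le_pow_right (by norm_num) hi)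
    exact h (by rw [Nat.testBit_lt_two_pow h1, Nat.testBit_lt_two_pow h2])
  · exact fun h => h.2

theorem ham_self (x : ℕ) : ham x x = 0 := by simp [ham]

theorem ham_comm (x y : ℕ) : ham x y = ham y x := by
  rw [ham, ham]; congr 1; ext i; simp [ne_comm]

theorem ham_dd {n x y : ℕ} (hx : x < 2 ^ n) (hy : y < 2 ^ n) :
    ham x y = V11212.Col.dd (fun i : Fin n => x.testBit i) (fun i : Fin n => y.testBit i) := by
  rw [ham_eq hx hy, V11212.Col.dd]
  refine (Finset.card_bij (fun (i : Fin n) _ => (i : ℕ)) ?_ ?_ ?_).symm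
  · intro i hi
    simp only [Finset.mem_filter, Finset.mem_univ, true_and] at hi
    simp only [Finset.mem_filter, Finset.mem_range]
    exact ⟨i.2, hi⟩
  · intro i _ j _ h; exact Fin.ext h
  · intro i hi
    simp only [Finset.mem_filter, Finset.mem_range] at hi
    exact ⟨⟨i, hi.1⟩, by simpa using hi.2, rfl⟩

/-- the graph -/
def gr (r : ℕ) : SimpleGraph ℕ where
  Adj x y := x ≠ y ∧ ham x y ≤ r
  symm := ⟨fun x y h => ⟨h.1.symm, by rw [ham_comm]; exact h.2⟩⟩
  loopless := ⟨fun x h => h.1 rfl⟩

theorem VR_eq (S : Finset ℕ) (r : ℕ) : VR S r = V11212.Col.cl (gr r) S \ {∅} := by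
  ext s
  constructor
  · rintro ⟨hne, hs, h⟩
    refine ⟨⟨hs, fun x hx y hy hxy => ⟨hxy, h x hx y hy⟩⟩, ?_⟩
    intro h0
    exact hne.ne_empty h0
  · rintro ⟨⟨hs, h⟩, hne⟩
    refine ⟨Finset.nonempty_iff_ne_empty.2 hne, hs, fun x hx y hy => ?_⟩
    by_cases hxy : x = y
    · subst hxy; rw [ham_self]; exact Nat.zero_le _
    · exact (h hx hy hxy).2

theorem skew_le (S : Finset ℕ) (r t : ℕ) (K : V11212.Col.Skew (gr r) S t) : t ≤ 2 ^ r := by
  obtain ⟨n, hn⟩ : ∃ n, ∀ x ∈ S, x < 2 ^ n := by
    refine ⟨S.sup id, fun x hx => ?_⟩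
    exact (Nat.lt_two_pow_self).trans_le
      (Nat.pow_le_pow_right (by norm_num) (Finset.le_sup (f := id) hx))
  refine V11212.Col.clique_skew_bound (ι := Fin n) (fun i k => (K.v i).testBit k)
    (fun i k => (K.w i).testBit k) (fun i j => ?_) (fun i => ?_) (fun i j hij => ?_)
  · rw [← ham_dd (hn _ (K.hv i)) (hn _ (K.hv j))]
    rcases lt_trichotomy i j with h | h | h
    · exact (K.clique i j h).2
    · subst h; rw [ham_self]; exact Nat.zero_le _
    · rw [ham_comm]; exact (K.clique j i h).2
  · rw [← ham_dd (hn _ (K.hv i)) (hn _ (K.hw i))]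
    by_contra h
    exact K.nadj i ⟨K.ne i, by omega⟩
  · rw [← ham_dd (hn _ (K.hv i)) (hn _ (K.hw j))]
    exact (K.adj i j hij).2

theorem complex_step {K L : Set (Finset ℕ)} (hK : IsComplex K) (h : ElemCollapse K L) :
    IsComplex L := by
  obtain ⟨s, t, hs, ht, hst, hc, hu, rfl⟩ := h
  rintro x ⟨hx, hne⟩
  refine ⟨(hK x hx).1, fun y hy hyx => ⟨(hK x hx).2 y hy hyx, ?_⟩⟩
  rintro (rfl | rfl)
  · by_cases hxy : x = y
    · exact hne (Or.inl hxy)
    · exact hne (Or.inr (hu x hx (Finset.ssubset_iff_subset_ne.2 ⟨hyx, fun e => hxy e.symm⟩)))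
  · exact hne (Or.inr (hu x hx (Finset.ssubset_of_ssubset_of_subset hst hyx)))

theorem complex_star {K L : Set (Finset ℕ)} (hK : IsComplex K) (h : Collapses K L) :
    IsComplex L := by
  induction h with
  | refl => exact hK
  | tail _ h ih => exact complex_step ih h

theorem VR_complex (S : Finset ℕ) (r : ℕ) : IsComplex (VR S r) := by
  rintro s ⟨hne, hs, h⟩
  exact ⟨hne, fun t ht hts => ⟨ht, hts.trans hs, fun x hx y hy => h x (hts hx) y (hts hy)⟩⟩

theorem main (S : Finset ℕ) (r : ℕ) :
    ∃ L, Collapses (VR S r) L ∧ IsComplex L ∧ L ⊆ skeleton (2 ^ r - 1) (VR S r) := by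
  classical
  obtain ⟨L, hL, hL'⟩ := V11212.Col.cl_collapse (gr r) S.card S rfl (2 ^ r)
    (fun t K => skew_le S r t K)
  have h1 := V11212.Col.star_nonempty (Nat.one_le_two_pow) hL
  rw [← VR_eq] at h1
  refine ⟨L \ {∅}, h1, complex_star (VR_complex S r) h1, ?_⟩
  rintro s ⟨hs, hne⟩
  refine ⟨?_, ?_⟩
  · rw [VR_eq]; exact ⟨V11212.Col.star_subset hL hs, hne⟩
  · have := hL' s hs
    have h2 : 1 ≤ 2 ^ r := Nat.one_le_two_pow
    omega

theorem card_le (t : Finset ℕ) (ht : t ∈ VR (Finset.range 9) 2) : t.card ≤ 5 := by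
  obtain ⟨_, hs, h⟩ := ht
  have h3 : ∀ x < 8, ham x (7 - x) = 3 := by
    intro x hx
    rw [ham_eq (n := 3) (by omega) (by omega)]
    interval_cases x <;> decide
  have hsub : t.image (fun x => if x < 8 then min x (7 - x) else 8) ⊆ {0, 1, 2, 3, 8} := by
    intro y hy
    obtain ⟨x, hx, rfl⟩ := Finset.mem_image.1 hy
    have := Finset.mem_range.1 (hs hx)
    interval_cases x <;> decide
  have hinj : Set.InjOn (fun x => if x < 8 then min x (7 - x) else 8) (t : Set ℕ) := by
    intro x hx y hy hxy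
    by_contra hne
    have hx' := Finset.mem_range.1 (hs hx)
    have hy' := Finset.mem_range.1 (hs hy)
    simp only at hxy
    have : x < 8 ∧ y = 7 - x := by
      split_ifs at hxy <;> omega
    have h4 := h x hx y hy
    rw [this.2, h3 x this.1] at h4
    omega
  rw [← Finset.card_image_of_injOn hinj]
  exact (Finset.card_le_card hsub).trans (by decide)

theorem big_mem : ({0, 1, 2, 4, 8} : Finset ℕ) ∈ VR (Finset.range 9) 2 := by
  refine ⟨⟨0, by simp⟩, by decide, ?_⟩
  intro x hx y hy
  have hx' : x < 2 ^ 4 := by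
    simp only [Finset.mem_insert, Finset.mem_singleton] at hx; omega
  have hy' : y < 2 ^ 4 := by
    simp only [Finset.mem_insert, Finset.mem_singleton] at hy; omega
  rw [ham_eq hx' hy']
  revert x y
  decide

theorem literal : ¬ Collapses (VR (Finset.range 9) 2)
    (skeleton 3 (VR (Finset.range 9) 2)) := by
  intro h
  rcases Relation.ReflTransGen.cases_head h with h | ⟨K, ⟨s, t, hs, ht, hst, hc, _, rfl⟩, h⟩
  · have := big_mem
    rw [h] at this
    exact absurd this.2 (by decide)
  · have hsub : ∀ {A B : Set (Finset ℕ)}, Collapses A B → B ⊆ A := by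
      intro A B hAB
      induction hAB with
      | refl => exact subset_rfl
      | tail _ h ih =>
        obtain ⟨_, _, _, _, _, _, _, rfl⟩ := h
        exact Set.sdiff_subset.trans ih
    have h1 := hsub h
    have h2 : ¬ s.card ≤ 4 := fun h3 => (h1 ⟨hs, h3⟩).2 (Or.inl rfl)
    have := card_le t ht
    omega

/-- **Main result.** For every finite set `S` of binary words (in particular for
`S = V_m = {0, ..., m - 1}`) and every scale `r`, the clique complex `VR S r` collapses to a
subcomplex of its `(2 ^ r - 1)`-skeleton.  (It need not collapse to the whole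
`(2 ^ r - 1)`-skeleton: this already fails for `V_9` and `r = 2`.) -/
theorem result :
    (∀ (S : Finset ℕ) (r : ℕ),
      ∃ L, Collapses (VR S r) L ∧ IsComplex L ∧ L ⊆ skeleton (2 ^ r - 1) (VR S r)) ∧
    ¬ Collapses (VR (Finset.range 9) 2) (skeleton (2 ^ 2 - 1) (VR (Finset.range 9) 2)) :=
  ⟨main, literal⟩

end Pool.Agent.Results.MP_6ffc1e_gt.CubeCollapse
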